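import Mathlib
import Pool.Agent.N432.SignedCrit

/-!
The signed `[0,s]`-critical number of the cyclic group of order `n` equals `v_±(n,s) + 1`, for all
positive integers `n` and `s`.
-/

set_option autoImplicit false

namespace Pool.Agent.Results.MP_c7e63d_co.SignedCritical

open Finset

/-- The `h`-fold signed sumset `h_± A`. -/
def signedSumset {n : ℕ} (A : Finset (ZMod n)) (h : ℕ) : Set (ZMod n) :=
  {x | ∃ l : ZMod n → ℤ, ∑ a ∈ A, |l a| = (h : ℤ) ∧ ∑ a ∈ A, l a • a = x}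

/-- The set `[0,s]_± A`. -/
def upTo {n : ℕ} (A : Finset (ZMod n)) (s : ℕ) : Set (ZMod n) :=
  {x | ∃ h : ℕ, h ≤ s ∧ x ∈ signedSumset A h}

/-- The signed `[0,s]`-critical number `χ_±(ℤ_n, [0,s])`. -/
noncomputable def chi (n s : ℕ) : ℕ :=
  sInf {m : ℕ | ∀ A : Finset (ZMod n), m ≤ A.card → upTo A s = Set.univ}

/-- `v_±(n,h)`; the division of integers rounds down. -/
def vpm (n h : ℕ) (hn : n ≠ 0) : ℤ :=
  n.divisors.sup' (Nat.nonempty_divisors.2 hn)
    (fun d => (2 * (((d : ℤ) - 2) / (2 * (h : ℤ))) + 1) * ((n / d : ℕ) : ℤ))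

theorem mem_upTo {n : ℕ} (A : Finset (ZMod n)) (s : ℕ) (x : ZMod n) :
    x ∈ upTo A s ↔ N432.SignedCrit.Reach A s x := by
  constructor
  · rintro ⟨h, hs, l, hl, hx⟩
    exact ⟨l, by rw [hl]; exact_mod_cast hs, hx⟩
  · rintro ⟨l, hl, hx⟩
    have h0 : 0 ≤ ∑ a ∈ A, |l a| := Finset.sum_nonneg fun a _ => abs_nonneg _
    refine ⟨(∑ a ∈ A, |l a|).toNat, by omega, l, ?_, hx⟩
    omega

theorem vpm_nonneg_or {n s : ℕ} (hn : n ≠ 0) (hs : 1 ≤ s) (h2 : 2 ≤ n) : 1 ≤ vpm n s hn := by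
  have h1 : (2 * (((n : ℤ) - 2) / (2 * (s : ℤ))) + 1) * ((n / n : ℕ) : ℤ) ≤ vpm n s hn :=
    Finset.le_sup' (fun d : ℕ => (2 * (((d : ℤ) - 2) / (2 * (s : ℤ))) + 1) * ((n / d : ℕ) : ℤ))
      (Nat.mem_divisors_self n hn)
  rw [Nat.div_self (Nat.pos_of_ne_zero hn)] at h1
  have h3 : 0 ≤ ((n : ℤ) - 2) / (2 * (s : ℤ)) := Int.ediv_nonneg (by omega) (by omega)
  push_cast at h1
  omega

/-- **Theorem.** `χ_±(ℤ_n, [0,s]) = v_±(n,s) + 1` for all positive integers `n` and `s`. -/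
theorem result : ∀ (n s : ℕ) (hn : n ≠ 0), 1 ≤ s → (chi n s : ℤ) = vpm n s hn + 1 := by
  intro n s hn hs
  haveI : NeZero n := ⟨hn⟩
  set V := vpm n s hn with hV
  have hVle : ∀ d, d ∣ n → N432.SignedCrit.val n s d ≤ V := fun d hd =>
    Finset.le_sup' (fun d : ℕ => (2 * (((d : ℤ) - 2) / (2 * (s : ℤ))) + 1) * ((n / d : ℕ) : ℤ))
      (Nat.mem_divisors.2 ⟨hd, hn⟩)
  obtain ⟨d, hd, hdV⟩ := Finset.exists_mem_eq_sup' (Nat.nonempty_divisors.2 hn)
    (fun d : ℕ => (2 * (((d : ℤ) - 2) / (2 * (s : ℤ))) + 1) * ((n / d : ℕ) : ℤ))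
  have hdV' : V = N432.SignedCrit.val n s d := hdV
  have hV1 : -1 ≤ V := by
    by_cases h2 : 2 ≤ n
    · have := vpm_nonneg_or hn hs h2
      omega
    · have hn1 : n = 1 := by omega
      subst hn1
      have hd1 : d = 1 := by simpa using hd
      subst hd1
      rw [hdV']
      unfold N432.SignedCrit.val
      have h3 : ((((1 : ℕ) : ℤ) - 2) / (2 * (s : ℤ))) = -1 := by
        apply Int.ediv_eq_iff_of_pos (by omega) |>.2
        constructor <;> push_cast <;> omega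
      rw [h3]
      simp
  have hmem : (V + 1).toNat ∈ {m : ℕ | ∀ A : Finset (ZMod n), m ≤ A.card → upTo A s = Set.univ} := by
    intro A hA
    rw [Set.eq_univ_iff_forall]
    intro x
    rw [mem_upTo]
    by_contra hx
    obtain ⟨e, he, hA'⟩ := N432.SignedCrit.upper hs A hx
    have := hVle e he
    omega
  have hlow : ∀ m ∈ {m : ℕ | ∀ A : Finset (ZMod n), m ≤ A.card → upTo A s = Set.univ},
      (V + 1).toNat ≤ m := by
    intro m hm
    by_contra hlt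
    push Not at hlt
    have hV0 : 0 ≤ V := by omega
    obtain ⟨A, hA, x, hx⟩ := N432.SignedCrit.lower hs (Nat.dvd_of_mem_divisors hd)
      (by rw [← hdV']; exact hV0)
    rw [← hdV'] at hA
    have h1 := hm A (by omega)
    rw [Set.eq_univ_iff_forall] at h1
    exact hx ((mem_upTo A s x).1 (h1 x))
  have h : chi n s = (V + 1).toNat := le_antisymm (Nat.sInf_le hmem) (hlow _ (Nat.sInf_mem ⟨_, hmem⟩))
  rw [h]
  omega

end Pool.Agent.Results.MP_c7e63d_co.SignedCritical
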